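import Pool.Agent.P.MP_16b5eb_nt.F5.Fin

set_option autoImplicit false

namespace Pool.Agent.Results.MP_16b5eb_nt.FiveIndivisible

open Pool.Agent.P.MP_16b5eb_nt.F5

/-- For a finite field F of characteristic 5 with q elements and every g at least 1, at least
(19 / 20 - 3 / sqrt q) q ^ (2 g + 2) of the monic polynomials D of degree 2 g + 2 are squarefree
and such that the ring of integers of the real quadratic field F(t)(sqrt D) has class number
prime to 5. -/
theorem result (F : Type) [Field F] [Fintype F] [CharP F 5] (g : ℕ) (hg : 1 ≤ g) :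
    (19 / 20 - 3 / √(Fintype.card F : ℝ)) * (Fintype.card F : ℝ) ^ (2 * g + 2) ≤
      Set.ncard {D : Polynomial F | D.Monic ∧ D.natDegree = 2 * g + 2 ∧ Squarefree D ∧
        ∃ K : IntermediateField (RatFunc F) (AlgebraicClosure (RatFunc F)),
          (∃ y : K, y ^ 2 = algebraMap (RatFunc F) K (algebraMap (Polynomial F) (RatFunc F) D)) ∧
          Module.finrank (RatFunc F) K = 2 ∧
          (∃ φ : K →+* LaurentSeries F,
            ∀ p : Polynomial F,
              φ (algebraMap (RatFunc F) K (algebraMap (Polynomial F) (RatFunc F) p)) =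
                p.eval₂ (HahnSeries.C : F →+* LaurentSeries F)
                  (HahnSeries.single (-1 : ℤ) (1 : F) : LaurentSeries F)) ∧
          ¬5 ∣ Nat.card (ClassGroup (integralClosure (Polynomial F) K))} := by
  rcases le_or_gt (19 / 20 - 3 / rr F) 0 with h | h
  · exact (mul_nonpos_of_nonpos_of_nonneg h (by positivity)).trans (Nat.cast_nonneg _)
  · rw [q_pow]
    refine (final (five_le h) hg _ fun D hD hs => glue hD hs).trans_eq ?_
    rw [← Set.ncard_coe_finset]
    congr 2
    ext D
    simp only [Finset.coe_filter, mem_Mo, Set.mem_ofPred_eq, and_assoc]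

end Pool.Agent.Results.MP_16b5eb_nt.FiveIndivisible
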