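import Pool.Agent.P.MP_16b5eb_nt.Main

set_option autoImplicit false

namespace Pool.Agent.Results.MP_16b5eb_nt.SmallClassNumberEven

open Pool.Agent.P.MP_16b5eb_nt

/-- For every finite field F of characteristic 2 with q elements there are infinitely many
quadratic extensions K of F(t) in which infinity splits and whose ring of integers has class
number at most d ^ 2 * q ^ (d / 2) / 2 ^ sqrt d, where d is the degree of the discriminant. -/
theorem result (F : Type) [Field F] [Fintype F] (hF : ringChar F = 2) :
    Set.Infinite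
      {K : IntermediateField (RatFunc F) (AlgebraicClosure (RatFunc F)) |
        Module.finrank (RatFunc F) K = 2 ∧
        (∃ φ : K →+* LaurentSeries F,
          ∀ p : Polynomial F,
            φ (algebraMap (RatFunc F) K (algebraMap (Polynomial F) (RatFunc F) p)) =
              p.eval₂ (HahnSeries.C : F →+* LaurentSeries F)
                (HahnSeries.single (-1 : ℤ) (1 : F) : LaurentSeries F)) ∧
        Finite (ClassGroup (integralClosure (Polynomial F) K)) ∧
        ∃ (β : Module.Basis (Fin 2) (Polynomial F) (integralClosure (Polynomial F) K)) (d : ℕ),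
          (Algebra.discr (Polynomial F) β).natDegree = d ∧
          (Nat.card (ClassGroup (integralClosure (Polynomial F) K)) : ℝ) ≤
            (d : ℝ) ^ 2 * (Fintype.card F : ℝ) ^ ((d : ℝ) / 2) / (2 : ℝ) ^ √(d : ℝ)} := by
  have hp : CharP F 2 := ringChar.of_eq hF
  have h2 : (2 : F) = 0 := CharP.cast_eq_zero F 2
  have hq : 2 ≤ Fintype.card F := Fintype.one_lt_card
  refine infinite_of_discr _ fun a => ?_
  obtain ⟨f, g, hg, hf, h0, ho⟩ := fam_two F hF a
  obtain ⟨K, k1, k2, k3, β, k4, k5⟩ := assemble F f 1 g 0 _ hf (by simp) (by simp [h0])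
    (by simp) (nonSing_two f) (nonSing_reflect_two hf) ho
  refine ⟨K, ⟨k1, k2, k3, β, _, k4, num_two hq (by rw [hg, ← pow_mul, mul_comm])
    (Nat.one_le_pow _ _ (by omega)) k5⟩, β, ?_⟩
  have a1 : a < 2 ^ a := Nat.lt_two_pow_self
  have a2 : 2 * 2 ^ a < Fintype.card F ^ (2 * 2 ^ a) := Nat.lt_pow_self hq
  omega

end Pool.Agent.Results.MP_16b5eb_nt.SmallClassNumberEven
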