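import Pool.Agent.P.MP_16b5eb_nt.Main

set_option autoImplicit false

namespace Pool.Agent.Results.MP_16b5eb_nt.SmallClassNumberOdd

open Pool.Agent.P.MP_16b5eb_nt

/-- For every finite field F of odd characteristic with q elements there are infinitely many
quadratic extensions K of F(t) in which infinity splits and whose ring of integers has class
number at most d ^ 2 * q ^ (d / 2) / 2 ^ (exp (sqrt (log q * log d)) / 2), where d is the degree
of the discriminant. -/
theorem result (F : Type) [Field F] [Fintype F] (hF : ringChar F ≠ 2) :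
    Set.Infinite
      {K : IntermediateField (RatFunc F) (AlgebraicClosure (RatFunc F)) |
        Module.finrank (RatFunc F) K = 2 ∧
        (∃ φ : K →+* LaurentSeries F,
          ∀ p : Polynomial F,
            φ (algebraMap (RatFunc F) K (algebraMap (Polynomial F) (RatFunc F) p)) =
              p.eval₂ (HahnSeries.C : F →+* LaurentSeries F)
                (HahnSeries.single (-1 : ℤ) (1 : F) : LaurentSeries F)) ∧
        Finite (ClassGroup (integralClosure (Polynomial F) K)) ∧
        ∃ (β : Module.Basis (Fin 2) (Polynomial F) (integralClosure (Polynomial F) K)) (d : ℕ),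
          (Algebra.discr (Polynomial F) β).natDegree = d ∧
          (Nat.card (ClassGroup (integralClosure (Polynomial F) K)) : ℝ) ≤
            (d : ℝ) ^ 2 * (Fintype.card F : ℝ) ^ ((d : ℝ) / 2) /
              (2 : ℝ) ^ (Real.exp √(Real.log (Fintype.card F : ℝ) * Real.log (d : ℝ)) / 2)} := by
  have h2 : (2 : F) ≠ 0 := Ring.two_ne_zero hF
  have hq : 2 ≤ Fintype.card F := Fintype.one_lt_card
  refine infinite_of_discr _ fun a => ?_
  obtain ⟨f, g, hg, hf, h0, hs, ho⟩ := fam_odd F hF (a + 1) (by omega)
  have hr : Polynomial.reflect (g + 1) (0 : Polynomial F) = 0 := Polynomial.reflect_zero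
  obtain ⟨K, k1, k2, k3, β, k4, k5⟩ := assemble F f 0 g 1 _ hf (by simp) (by simp [h0])
    (by simpa using h2) (nonSing_odd h2 hs.squarefree) (by
      rw [hr]
      exact nonSing_odd h2 (squarefree_reflect hf
        (by rw [Polynomial.coeff_zero_eq_eval_zero, h0]; exact one_ne_zero) hs.squarefree)) ho
  refine ⟨K, ⟨k1, k2, k3, β, _, k4, num_odd hq (by omega) hg k5⟩, β, ?_⟩
  have a1 : a + 1 ≤ (a + 1) * (a + 1) := Nat.le_mul_self _
  have a2 : (a + 1) * (a + 1) < Fintype.card F ^ ((a + 1) * (a + 1)) := Nat.lt_pow_self hq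
  omega

end Pool.Agent.Results.MP_16b5eb_nt.SmallClassNumberOdd
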